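import Pool.Agent.Helper98.GX.St3

/-!
# Project GX, module CRA: Cramer's rule, the log derivations preserve the valuation ring
-/

set_option autoImplicit false

open scoped BigOperators

namespace Pool.Agent.Helper46.GX

open Pool.Agent.Helper98.GX
open Pool.Agent.Helper53.CX (DivVal LinSys IsNefCartier)

private theorem ord_prod {K : Type} [Field K] [Algebra ℂ K] (v : DivVal K) {ι : Type}
    (s : Finset ι) (g : ι → K) (hg : ∀ b ∈ s, g b ≠ 0) :
    v.ord (∏ b ∈ s, g b) = ∑ b ∈ s, v.ord (g b) := by
  classical
  induction s using Finset.induction_on with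
  | empty =>
      have h := v.ord_mul 1 1 one_ne_zero one_ne_zero
      simp only [mul_one] at h
      simp only [Finset.prod_empty, Finset.sum_empty]
      omega
  | insert a s ha ih =>
      rw [Finset.prod_insert ha, Finset.sum_insert ha, v.ord_mul _ _ (hg a (by simp))
        (Finset.prod_ne_zero_iff.mpr fun b hb => hg b (by simp [hb])),
        ih fun b hb => hg b (by simp [hb])]

private theorem jac_update {K : Type} [Field K] [Algebra ℂ K] {n : ℕ} (L : LogCoord K n)
    (f : K) (j : Fin n) :
    jac L (Function.update L.z j f) = (∏ b ∈ Finset.univ.erase j, L.z b) * L.θ j f := by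
  have hM : (Matrix.of fun i b => L.θ b (Function.update L.z j f i)) =
      (Matrix.diagonal L.z).updateRow j (fun b => L.θ b f) := by
    ext i b
    by_cases hi : i = j
    · subst hi
      simp [Matrix.updateRow_self]
    · rw [Matrix.updateRow_ne hi, Matrix.of_apply, Function.update_of_ne hi, L.theta_z,
        Matrix.diagonal_apply]
  rw [jac, hM, ← Matrix.cramer_transpose_apply, Matrix.cramer_eq_adjugate_mulVec,
    Matrix.diagonal_transpose, Matrix.adjugate_diagonal, Matrix.mulVec_diagonal]

theorem hCRA (hJEX : StJEX) : StCRA := by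
  intro K _ _ n L v hz hω f j hf hθ
  have h : ∃ e : ℤ, IsJacMin L v e := hJEX K n L v
  have homega : ordOmega L v = - h.choose := by
    unfold ordOmega
    rw [dif_pos h]
  have hzne : ∀ b, L.z b ≠ 0 := fun b => L.basis.1.ne_zero b
  have he : h.choose = ∑ b, v.ord (L.z b) := by
    rw [homega] at hω
    linarith
  have hpne : (∏ b ∈ Finset.univ.erase j, L.z b) ≠ 0 :=
    Finset.prod_ne_zero_iff.mpr fun b _ => hzne b
  have hmin := h.choose_spec.1 (Function.update L.z j f) (fun i => by
    by_cases hi : i = j
    · subst hi
      simpa using hf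
    · rw [Function.update_of_ne hi]
      exact hz i) (by
    rw [jac_update]
    exact mul_ne_zero hpne hθ)
  rw [jac_update, v.ord_mul _ _ hpne hθ, ord_prod v _ _ (fun b _ => hzne b), he,
    ← Finset.add_sum_erase Finset.univ (fun b => v.ord (L.z b)) (Finset.mem_univ j)] at hmin
  linarith

end Pool.Agent.Helper46.GX
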